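import Pool.Agent.Helper16.SYM.Defs

/-!
# SYM-A2: linear algebra over a field

The residue functional `f ↦ (f %ₘ U).coeff (N - 1)` and the surjectivity statement `field_surj`.
-/

namespace Pool.Agent.Helper85.SYMA2

open Polynomial IsLocalRing
open Pool.Agent.Helper16.SYM

variable {k : Type*} [Field k]

/-- The functional `f ↦ (f %ₘ U).coeff n`. -/
noncomputable def res (U : k[X]) (n : ℕ) : k[X] →ₗ[k] k :=
  (lcoeff k n).comp (modByMonicHom U)

theorem res_apply (U : k[X]) (n : ℕ) (f : k[X]) : res U n f = (f %ₘ U).coeff n := rfl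

theorem mul_mod_sq {U : k[X]} (hU : U.Monic) (f : k[X]) :
    (U * f) %ₘ (U ^ 2) = U * (f %ₘ U) := by
  refine (div_modByMonic_unique (f := U * f) (g := U ^ 2) (f /ₘ U) (U * (f %ₘ U)) (hU.pow 2)
    ⟨?_, ?_⟩).2
  · have h := modByMonic_add_div f U
    calc U * (f %ₘ U) + U ^ 2 * (f /ₘ U) = U * (f %ₘ U + U * (f /ₘ U)) := by ring
      _ = U * f := by rw [h]
  · rw [pow_two, degree_mul, degree_mul]
    have hU0 : U.degree ≠ ⊥ := by
      rw [Ne, degree_eq_bot]
      exact hU.ne_zero
    exact WithBot.add_lt_add_left hU0 (degree_modByMonic_lt f hU)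

theorem res_sq {U : k[X]} (hU : U.Monic) (f : k[X]) :
    res (U ^ 2) (2 * U.natDegree - 1) (U * f) = res U (U.natDegree - 1) f := by
  rw [res_apply, res_apply, mul_mod_sq hU]
  by_cases hN : U.natDegree = 0
  · have hU1 : U = 1 := hU.natDegree_eq_zero.mp hN
    subst hU1
    simp
  · have h1 : 2 * U.natDegree - 1 = U.natDegree + (U.natDegree - 1) := by omega
    have h2 : (f %ₘ U).natDegree ≤ U.natDegree - 1 := by
      have := natDegree_modByMonic_lt f hU (by
        intro h
        apply hN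
        rw [h, natDegree_one])
      omega
    rw [h1, coeff_mul_add_eq_of_natDegree_le le_rfl h2, hU.coeff_natDegree, one_mul]

theorem dvd_of_res {U : k[X]} (hU : U.Monic) (Θ : k[X])
    (h : ∀ s, res U (U.natDegree - 1) (Θ * s) = 0) : U ∣ Θ := by
  rw [← modByMonic_eq_zero_iff_dvd hU]
  by_contra hne
  have hU1 : U ≠ 1 := by
    intro h1
    apply hne
    rw [h1, modByMonic_one]
  have hlt : (Θ %ₘ U).natDegree < U.natDegree := natDegree_modByMonic_lt Θ hU hU1
  have h1 := h (X ^ (U.natDegree - 1 - (Θ %ₘ U).natDegree))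
  have h2 : (Θ * X ^ (U.natDegree - 1 - (Θ %ₘ U).natDegree)) %ₘ U =
      (Θ %ₘ U) * X ^ (U.natDegree - 1 - (Θ %ₘ U).natDegree) := by
    refine (div_modByMonic_unique (f := Θ * X ^ (U.natDegree - 1 - (Θ %ₘ U).natDegree)) (g := U)
      ((Θ /ₘ U) * X ^ (U.natDegree - 1 - (Θ %ₘ U).natDegree))
      ((Θ %ₘ U) * X ^ (U.natDegree - 1 - (Θ %ₘ U).natDegree)) hU ⟨?_, ?_⟩).2
    · have h := modByMonic_add_div Θ U
      set e := U.natDegree - 1 - (Θ %ₘ U).natDegree
      calc (Θ %ₘ U) * X ^ e + U * ((Θ /ₘ U) * X ^ e) = (Θ %ₘ U + U * (Θ /ₘ U)) * X ^ e := by ring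
        _ = Θ * X ^ e := by rw [h]
    · rw [degree_mul, degree_pow, degree_X, degree_eq_natDegree hne,
        degree_eq_natDegree hU.ne_zero]
      have : (Θ %ₘ U).natDegree + (U.natDegree - 1 - (Θ %ₘ U).natDegree) < U.natDegree := by
        omega
      simp only [nsmul_eq_mul, mul_one]
      exact_mod_cast this
  rw [res_apply, h2] at h1
  have h3 : U.natDegree - 1 = (Θ %ₘ U).natDegree + (U.natDegree - 1 - (Θ %ₘ U).natDegree) := by
    omega
  have h4 : ((Θ %ₘ U) * X ^ (U.natDegree - 1 - (Θ %ₘ U).natDegree)).coeff (U.natDegree - 1) =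
      ((Θ %ₘ U) * X ^ (U.natDegree - 1 - (Θ %ₘ U).natDegree)).coeff
        ((Θ %ₘ U).natDegree + (U.natDegree - 1 - (Θ %ₘ U).natDegree)) := by
    congr 1
  rw [h4, coeff_mul_X_pow] at h1
  exact hne (leadingCoeff_eq_zero.mp h1)

/-- `G` divided by `z ^ (j + 1)`, the polynomial part. -/
noncomputable def tail (G : k[X][X]) (j : ℕ) : k[X][X] :=
  ∑ l ∈ Finset.Icc (j + 1) G.natDegree, C (G.coeff l) * X ^ (l - (j + 1))

theorem tail_eval (G : k[X][X]) (j : ℕ) (Y : k[X]) :
    (tail G j).eval Y = (quo G Y).coeff j := by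
  rw [quo, coeff_divByMonic_X_sub_C, tail, eval_finsetSum]
  refine Finset.sum_congr rfl fun l _ => ?_
  rw [eval_mul, eval_C, eval_pow, eval_X, mul_comm]

theorem tail_coeff (G : k[X][X]) (j m : ℕ) : (tail G j).coeff m = G.coeff (m + j + 1) := by
  rw [tail, finsetSum_coeff]
  simp only [coeff_C_mul, coeff_X_pow]
  by_cases h : m + j + 1 ≤ G.natDegree
  · rw [Finset.sum_eq_single (m + j + 1)]
    · have : m + j + 1 - (j + 1) = m := by omega
      rw [this, if_pos rfl, mul_one]
    · intro l hl hne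
      rw [Finset.mem_Icc] at hl
      rw [if_neg (by omega), mul_zero]
    · intro h'
      exfalso
      apply h'
      rw [Finset.mem_Icc]
      omega
  · rw [coeff_eq_zero_of_natDegree_lt (by omega)]
    refine Finset.sum_eq_zero fun l hl => ?_
    rw [Finset.mem_Icc] at hl
    rw [if_neg (by omega), mul_zero]

/-- The index set of the residue conditions. -/
abbrev Idx (r e : ℕ) : Type := Σ j : Fin r, Fin (e * (j : ℕ))

/-- The linear map of the residue conditions. -/
noncomputable def Phi (r e : ℕ) (U : k[X]) (H : ℕ → k[X]) : k[X] →ₗ[k] (Idx r e → k) :=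
  LinearMap.pi fun a => (res U (U.natDegree - 1)).comp
    (LinearMap.mulLeft k (X ^ (a.2 : ℕ) * H a.1))

theorem Phi_apply (r e : ℕ) (U : k[X]) (H : ℕ → k[X]) (s : k[X]) (a : Idx r e) :
    Phi r e U H s a = res U (U.natDegree - 1) (X ^ (a.2 : ℕ) * H a.1 * s) := rfl

theorem Phi_surj {G : k[X][X]} (hG : G.Monic) {e : ℕ} (hwt : Wt G e) {U Y Y₂ : k[X]}
    (hU : U.Monic) (hY : U ∣ Y₂ - Y) (hunis : Unis G.natDegree e U Y) :
    Function.Surjective (Phi G.natDegree e U fun j => (quo G Y₂).coeff j) := by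
  classical
  rw [← LinearMap.range_eq_top]
  by_contra hne
  obtain ⟨f, hf0, hf⟩ := Submodule.exists_le_ker_of_lt_top _ (lt_top_iff_ne_top.mpr hne)
  set c : Idx G.natDegree e → k := fun a => f (Pi.single a 1) with hc
  have hfv : ∀ v : Idx G.natDegree e → k, f v = ∑ a, v a * c a := by
    intro v
    conv_lhs => rw [← Finset.univ_sum_single v]
    rw [map_sum]
    refine Finset.sum_congr rfl fun a _ => ?_
    have : (Pi.single a (v a) : Idx G.natDegree e → k) = v a • Pi.single a 1 := by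
      rw [← Pi.single_smul, smul_eq_mul, mul_one]
    rw [this, map_smul, smul_eq_mul]
  have hc0 : ∃ a, c a ≠ 0 := by
    by_contra h
    push Not at h
    apply hf0
    ext v
    simp only [LinearMap.coe_comp, Function.comp_apply, LinearMap.zero_apply, LinearMap.coe_single]
    rw [hfv]
    simp [h]
  -- the coefficient polynomials
  let cp : Fin G.natDegree → k[X] := fun j => ∑ i : Fin (e * (j : ℕ)), C (c ⟨j, i⟩) * X ^ (i : ℕ)
  have hcp_coeff : ∀ (j : Fin G.natDegree) (i : Fin (e * (j : ℕ))),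
      (cp j).coeff (i : ℕ) = c ⟨j, i⟩ := by
    intro j i
    simp only [cp, finsetSum_coeff, coeff_C_mul, coeff_X_pow]
    rw [Finset.sum_eq_single i]
    · simp
    · intro b _ hb
      rw [if_neg (by intro h; exact hb (Fin.ext h.symm)), mul_zero]
    · simp
  have hcp_deg : ∀ j : Fin G.natDegree, cp j ∈ degreeLT k (e * (j : ℕ)) := by
    intro j
    refine Submodule.sum_mem _ fun i _ => ?_
    rw [mem_degreeLT]
    exact (degree_C_mul_X_pow_le _ _).trans_lt (by exact_mod_cast i.2)
  let T : k[X][X] := ∑ j : Fin G.natDegree, C (cp j) * tail G j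
  have hTc : ∀ m, T.coeff m = ∑ j : Fin G.natDegree, cp j * G.coeff (m + j + 1) := by
    intro m
    simp only [T, finsetSum_coeff, coeff_C_mul, tail_coeff]
  -- divisibility
  have hΘ : ∀ s, res U (U.natDegree - 1) (T.eval Y₂ * s) = 0 := by
    intro s
    have h1 : f (Phi G.natDegree e U (fun j => (quo G Y₂).coeff j) s) = 0 := by
      have := hf (LinearMap.mem_range_self _ s)
      rwa [LinearMap.mem_ker] at this
    rw [hfv] at h1
    rw [← h1, Fintype.sum_sigma]
    simp only [T, eval_finsetSum, eval_mul, eval_C, tail_eval, Finset.sum_mul, map_sum]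
    refine Finset.sum_congr rfl fun j _ => ?_
    have h2 : cp j * (quo G Y₂).coeff (j : ℕ) * s = ∑ i : Fin (e * (j : ℕ)),
        c ⟨j, i⟩ • (X ^ (i : ℕ) * (quo G Y₂).coeff (j : ℕ) * s) := by
      simp only [cp, Finset.sum_mul]
      refine Finset.sum_congr rfl fun i _ => ?_
      rw [smul_eq_C_mul]
      ring
    rw [h2, map_sum]
    refine Finset.sum_congr rfl fun i _ => ?_
    rw [map_smul, Phi_apply, smul_eq_mul, mul_comm]
  have hdvd2 : U ∣ T.eval Y₂ := dvd_of_res hU _ hΘ
  have hdvd : U ∣ T.eval Y := by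
    have h1 : U ∣ T.eval Y₂ - T.eval Y := hY.trans (sub_dvd_eval_sub Y₂ Y T)
    have h2 := dvd_sub hdvd2 h1
    rwa [sub_sub_cancel] at h2
  -- nonvanishing
  have hT0 : T ≠ 0 := by
    obtain ⟨a, ha⟩ := hc0
    have hex : ∃ n, ∃ h : n < G.natDegree, cp ⟨n, h⟩ ≠ 0 := by
      refine ⟨a.1, a.1.2, ?_⟩
      intro h
      apply ha
      have h1 := hcp_coeff a.1 a.2
      have h2 : cp a.1 = 0 := h
      rw [h2, coeff_zero] at h1
      exact h1.symm
    obtain ⟨h0, h1⟩ := Nat.find_spec hex
    have hmin : ∀ j : Fin G.natDegree, (j : ℕ) < Nat.find hex → cp j = 0 := by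
      intro j hj
      by_contra h
      exact Nat.find_min hex hj ⟨j.2, h⟩
    intro hT
    apply h1
    have h2 := hTc (G.natDegree - 1 - Nat.find hex)
    rw [hT, coeff_zero, Finset.sum_eq_single (⟨Nat.find hex, h0⟩ : Fin G.natDegree)] at h2
    · have h3 : G.natDegree - 1 - Nat.find hex + Nat.find hex + 1 = G.natDegree := by omega
      simp only [h3, hG.coeff_natDegree, mul_one] at h2
      exact h2.symm
    · intro j _ hj
      rcases lt_trichotomy (j : ℕ) (Nat.find hex) with h | h | h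
      · rw [hmin j h, zero_mul]
      · exact absurd (Fin.ext h) hj
      · rw [coeff_eq_zero_of_natDegree_lt (by omega), mul_zero]
    · intro h
      exact absurd (Finset.mem_univ _) h
  refine hunis T hT0 ?_ hdvd
  intro m hm
  have hmem : T.coeff m ∈ degreeLT k (e * (G.natDegree - 1) - e * m) := by
    rw [hTc]
    refine Submodule.sum_mem _ fun j _ => ?_
    by_cases h0 : cp j * G.coeff (m + j + 1) = 0
    · rw [h0]
      exact Submodule.zero_mem _
    · have h1 : cp j ≠ 0 := left_ne_zero_of_mul h0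
      have h2 : G.coeff (m + j + 1) ≠ 0 := right_ne_zero_of_mul h0
      have h3 : (cp j).natDegree < e * (j : ℕ) := by
        have := hcp_deg j
        rw [mem_degreeLT, degree_eq_natDegree h1] at this
        exact_mod_cast this
      have h4 := hwt (m + j + 1)
      have h5 : m + j + 1 ≤ G.natDegree := by
        by_contra h
        exact h2 (coeff_eq_zero_of_natDegree_lt (by omega))
      rw [mem_degreeLT, degree_eq_natDegree h0, natDegree_mul h1 h2]
      have h6 : (cp j).natDegree + (G.coeff (m + j + 1)).natDegree <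
          e * (G.natDegree - 1) - e * m := by
        obtain ⟨d, hd⟩ := Nat.exists_eq_add_of_le h5
        have h7 : G.natDegree - (m + j + 1) = d := by omega
        have h8 : G.natDegree - 1 = m + j + d := by omega
        rw [h7] at h4
        rw [h8, mul_add, mul_add]
        omega
      exact_mod_cast h6
  rw [mem_degreeLT, degree_eq_natDegree hm] at hmem
  have : (T.coeff m).natDegree < e * (G.natDegree - 1) - e * m := by exact_mod_cast hmem
  omega

theorem quo_eval_self (G : k[X][X]) (Y : k[X]) :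
    (quo G Y).eval Y = (derivative G).eval Y := by
  have h := divByMonic_add_X_sub_C_mul_derivative_divByMonic_eq_derivative G Y
  rw [← h, quo]
  simp

/-- A2 -/
theorem field_surj {k : Type*} [Field k] {G : k[X][X]} (hG : G.Monic) (hr : 0 < G.natDegree)
    {e : ℕ} (hwt : Wt G e) {U Y Y₂ : k[X]} (hU : U.Monic) (hY : U ∣ Y₂ - Y)
    (hunram : IsCoprime ((derivative G).eval Y) U) (hunis : Unis G.natDegree e U Y)
    (τ : ℕ → ℕ → k) (ξ : k[X]) :
    ∃ s : k[X], (∀ j < G.natDegree, ∀ i < e * j,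
        ((X ^ i * (s * (quo G Y₂).coeff j)) %ₘ (U ^ 2)).coeff (2 * U.natDegree - 1) = τ j i) ∧
      U ∣ (∑ j ∈ Finset.range G.natDegree, ((s * (quo G Y₂).coeff j) %ₘ (U ^ 2)) * Y ^ j) - ξ := by
  obtain ⟨a, b, hab⟩ := hunram
  set H : ℕ → k[X] := fun j => (quo G Y₂).coeff j with hH
  obtain ⟨s1, hs1⟩ := Phi_surj hG hwt hU hY hunis (fun q => τ q.1 q.2 -
    res (U ^ 2) (2 * U.natDegree - 1) (X ^ (q.2 : ℕ) * (a * ξ * H q.1)))
  refine ⟨a * ξ + U * s1, ?_, ?_⟩
  · intro j hj i hi
    have h1 := congrFun hs1 ⟨⟨j, hj⟩, ⟨i, hi⟩⟩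
    rw [Phi_apply] at h1
    simp only at h1
    change res (U ^ 2) (2 * U.natDegree - 1) (X ^ i * ((a * ξ + U * s1) * H j)) = τ j i
    have h2 : X ^ i * ((a * ξ + U * s1) * H j) =
        X ^ i * (a * ξ * H j) + U * (X ^ i * H j * s1) := by ring
    rw [h2, map_add, res_sq hU]
    rw [h1]
    ring
  · have h1 : U ∣ (∑ j ∈ Finset.range G.natDegree,
        (((a * ξ + U * s1) * (quo G Y₂).coeff j) %ₘ (U ^ 2)) * Y ^ j) -
        ∑ j ∈ Finset.range G.natDegree, ((a * ξ + U * s1) * (quo G Y₂).coeff j) * Y ^ j := by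
      rw [← Finset.sum_sub_distrib]
      refine Finset.dvd_sum fun j _ => ?_
      rw [modByMonic_eq_sub_mul_div, ← sub_mul]
      refine Dvd.dvd.mul_right ?_ _
      refine ⟨-(U * (((a * ξ + U * s1) * (quo G Y₂).coeff j) /ₘ (U ^ 2))), ?_⟩
      ring
    have h2 : ∑ j ∈ Finset.range G.natDegree, ((a * ξ + U * s1) * (quo G Y₂).coeff j) * Y ^ j =
        (a * ξ + U * s1) * (quo G Y₂).eval Y := by
      rw [eval_eq_sum_range' (n := G.natDegree), Finset.mul_sum]
      · refine Finset.sum_congr rfl fun j _ => ?_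
        ring
      · rw [quo, natDegree_divByMonic _ (monic_X_sub_C _), natDegree_X_sub_C]
        omega
    have h3 : U ∣ (quo G Y₂).eval Y₂ - (quo G Y₂).eval Y :=
      hY.trans (sub_dvd_eval_sub Y₂ Y _)
    have h4 : U ∣ (derivative G).eval Y₂ - (derivative G).eval Y :=
      hY.trans (sub_dvd_eval_sub Y₂ Y _)
    rw [quo_eval_self] at h3
    have h5 : U ∣ (derivative G).eval Y - (quo G Y₂).eval Y := by
      have := dvd_sub h3 h4
      have h6 : (derivative G).eval Y₂ - (quo G Y₂).eval Y -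
          ((derivative G).eval Y₂ - (derivative G).eval Y) =
          (derivative G).eval Y - (quo G Y₂).eval Y := by ring
      rwa [h6] at this
    rw [h2] at h1
    have h7 : (∑ j ∈ Finset.range G.natDegree,
        (((a * ξ + U * s1) * (quo G Y₂).coeff j) %ₘ (U ^ 2)) * Y ^ j) - ξ =
        ((∑ j ∈ Finset.range G.natDegree,
        (((a * ξ + U * s1) * (quo G Y₂).coeff j) %ₘ (U ^ 2)) * Y ^ j) -
          (a * ξ + U * s1) * (quo G Y₂).eval Y) +
        (-(a * ξ + U * s1) * ((derivative G).eval Y - (quo G Y₂).eval Y) +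
        U * (s1 * (derivative G).eval Y - b * ξ)) := by
      linear_combination ξ * hab
    rw [h7]
    exact dvd_add h1 (dvd_add (Dvd.dvd.mul_left h5 _) (dvd_mul_right _ _))

end Pool.Agent.Helper85.SYMA2
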